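import Pool.Agent.Lib.CAT9.Large

/-!
# MP_61b266_lc, Q1

Let `μ` be a cardinal with `μ < μ ^ ℵ₀`, for instance `ℵ_ω`.  There are a `μ⁺`-directed closed
forcing notion `Q` and a `μ⁺`-distributive forcing notion `P` such that `P × Add(ω, 1)` forces that
there is a `μ⁺`-Aronszajn tree, and `P` forces the tree property at `μ⁺` if `Q` does.

If `μ` is the limit of cardinals `κ n` such that every `μ⁺`-directed closed forcing notion forces
that `μ⁺` carries `κ n`-complete uniform ultrafilters (for instance, Laver indestructible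
supercompact cardinals), then `P` forces the tree property at `μ⁺`.

If the tree property at `ℵ_{ω+1}` is indestructible under `ℵ_{ω+1}`-directed closed forcing, then
in the extension by `P` the tree property at `ℵ_{ω+1}` holds and one Cohen real destroys it.
-/

namespace Pool.Agent.Results.MP_61b266_lc.CohenDestroys

open Cardinal CAT9

theorem result :
    (∀ μ : Cardinal.{0}, ℵ₀ ≤ μ → μ < μ ^ ℵ₀ →
      ∃ (P : Type) (_ : Preorder P) (Q : Type) (_ : Preorder Q),
        Nonempty P ∧ Distributive μ P ∧ DirectedClosed μ Q ∧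
        ForcesAronszajn (P × AddOmega) (Lev μ) (Nod μ) ∧
        (ForcesTP Q (Lev μ) (Nod μ) → ForcesTP P (Lev μ) (Nod μ))) ∧
    (∀ κ : ℕ → Cardinal.{0}, StrictMono κ → ℵ₀ < κ 0 →
      (∀ (n : ℕ) (Q : Type) (_ : Preorder Q), DirectedClosed (⨆ n, κ n) Q →
        ∀ p : Q, ∃ q, q ≤ p ∧ Nonempty (UltraName (κ n) Q (Lev (⨆ n, κ n)) q)) →
      ∃ (P : Type) (_ : Preorder P),
        Nonempty P ∧ Distributive (⨆ n, κ n) P ∧
        ForcesTP P (Lev (⨆ n, κ n)) (Nod (⨆ n, κ n)) ∧
        ForcesAronszajn (P × AddOmega) (Lev (⨆ n, κ n)) (Nod (⨆ n, κ n))) ∧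
    ℵ₀ ≤ aleph.{0} Ordinal.omega0 ∧ aleph.{0} Ordinal.omega0 < aleph.{0} Ordinal.omega0 ^ ℵ₀ :=
  ⟨fun μ hμ hpow => CAT9.main μ hμ hpow, fun κ hκ h0 H => CAT9.main_large κ hκ h0 H,
    aleph0_le_aleph _, CAT9.aleph_omega_lt⟩

end Pool.Agent.Results.MP_61b266_lc.CohenDestroys
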