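import Pool.Agent.Lib.FTP.Main

/-!
# MP_61b266_lc, Q1: a positive answer

Let `κ 0 < κ 1 < ...` be indestructibly supercompact cardinals and `ν` their supremum. There is a
forcing notion `P` which forces that `ν` is `ℵ_ω`, a strong limit cardinal, `ν⁺ = ℵ_{ω+1}`, and that
the tree property holds at `ν⁺`, while `P × Add(ω, 1)`, that is, `P` followed by the forcing notion
which adds one Cohen real, forces that there is a `ν⁺`-Aronszajn tree.

Conditions of `P` are triples of a condition `k` of `K = Col(ω, μ)`, a `K`-name `p` for an initial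
segment of a name for a tree of height `ν⁺` in the extension by one more Cohen real, and a condition
of the product of the collapses `Col(μ⁺, < κ 0)` and `Col(κ j ⁺⁺, < κ (j + 1))`, for a suitable
`μ < κ 0`, below a suitable condition.
-/

namespace Pool.Agent.Results.MP_61b266_lc.CohenModel

open Cardinal CAT9 FTP

/-- In the extension by `P` the tree property holds at `ℵ_{ω+1}` and `ℵ_ω` is a strong limit, and
adding one Cohen real to this extension adds an `ℵ_{ω+1}`-Aronszajn tree. -/
theorem result (κ : ℕ → Cardinal.{0}) (hκ : StrictMono κ) (h : ∀ n, IndSupercompact (κ n)) :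
    ∃ (P : Type) (_ : Preorder P), Nonempty P ∧
      ForcesAlephOmega P (⨆ n, κ n) ∧ ForcesStrongLimit P (⨆ n, κ n) ∧
      ForcesTP P (Lev (⨆ n, κ n)) (Nod (⨆ n, κ n)) ∧
      ForcesAronszajn (P × AddOmega) (Lev (⨆ n, κ n)) (Nod (⨆ n, κ n)) :=
  FTP.main κ hκ h

end Pool.Agent.Results.MP_61b266_lc.CohenModel
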